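import Pool.Agent.R533.PSP.Final

/-!
# The Euclidean maximum 2-peripatetic salesman problem is NP-hard

Definitions: `Pool/Agent/R533/PSP/Cyc.lean` and `Pool/Agent/R533/PSP/Defs.lean` (`cyc`, `pt`,
`tourLen`, `MaxPSP2`), `Pool/Agent/NPC/Defs.lean` (`NPHardP`, `TEnc`; Turing machines of Mathlib).

Idea. The points lie near a circle, alternately near a direction and its opposite: level `l` lies
near `(-1) ^ l · exp (i l θ)`. Two points are almost diametrically opposite only if their levels are
consecutive, and then their distance is `φ(a) + φ(b) - U ((x_a - x_b) ^ 2 - t_a + t_b)`, up to a tiny
error, where `x` is a radial and `t` a tangential coordinate, chosen freely. So two disjoint tours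
of maximum total length live on the graph of consecutive levels and minimise a sum of costs
`(x_a - x_b) ^ 2 - P_a - Q_b`. Potentials `P`, `Q` of Monge type make the costs of the wanted edges
minimal. The levels carry a planar system of strands (from the reduction for the maximum scatter
TSP); every piece of a strand is a rod of complete bipartite graphs whose widths force each of the
two tours to run through the rod exactly once. At some places neighbouring rods may be swapped at
cost `1` for each edge. Both tours are connected only if the swaps connect all closed strands, and
with the minimum possible number of swaps in both tours the swapped pairs are disjoint and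
adjacent. Choosing swaps which connect all closed strands is NP-complete.
-/

set_option autoImplicit false

namespace Pool.Agent.Results.MP_95a0ff_lc.EuclideanNPHard

open Pool.Agent.NPC Pool.Agent.R533.PSP

/-- For every fixed dimension `s ≥ 2`, the Euclidean Max-2-PSP in `ℝˢ` is NP-hard. -/
theorem result : ∀ s : ℕ, 2 ≤ s → NPHardP (MaxPSP2 s) := npHard_maxPSP2

end Pool.Agent.Results.MP_95a0ff_lc.EuclideanNPHard
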